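import Pool.Agent.H36.Car.Pert

/-!
Lemma C: regular tournaments with a monotone potential are carousels.
-/

set_option autoImplicit false

open Finset Filter Topology

namespace H51.Car

/-- P1c, Lemma C of the paper proof. -/
theorem lemmaC (k : ℕ) (hodd : Odd k) (B : Fin k → Fin k → ℤ) (hB : IsT B)
    (hreg : ∀ i, ∑ j, B i j = 0) (ε : Fin k → ℤ) (hε : ∀ i, ε i = 1 ∨ ε i = -1)
    (hsum : ∑ i, ε i = 1) (ψ : Fin k → ℝ)
    (hψ : ∀ i, ∑ j, (B i j : ℝ) * ψ j = (ε i : ℝ) - 1 / (k : ℝ))
    (hmono : ∀ i j, (ε i : ℝ) * (ε j : ℝ) * (B i j : ℝ) * (ψ i - ψ j) ≤ 0) : IsAlt B := by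
  classical
  have hk0 : 0 < k := by
    obtain ⟨m, hm⟩ := hodd
    omega
  have hkr : (0:ℝ) < k := by exact_mod_cast hk0
  have hεsq : ∀ i, ε i * ε i = 1 := fun i => by rcases hε i with h | h <;> rw [h] <;> norm_num
  -- the switched matrix
  set A : Fin k → Fin k → ℤ := fun i j => ε i * ε j * B i j with hA
  have hAsk : ∀ i j, A j i = - A i j := fun i j => by
    simp only [hA]; rw [hB.skew i j]; ring
  have hApm : ∀ i j, i ≠ j → A i j = 1 ∨ A i j = -1 := by
    intro i j hij
    simp only [hA]
    rcases hε i with h1 | h1 <;> rcases hε j with h2 | h2 <;> rcases hB.pm i j hij with h3 | h3 <;>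
      rw [h1, h2, h3] <;> norm_num
  have hBA : ∀ i j, B i j = ε i * ε j * A i j := by
    intro i j
    simp only [hA]
    have h1 := hεsq i
    have h2 := hεsq j
    calc B i j = (ε i * ε i) * (ε j * ε j) * B i j := by rw [h1, h2]; ring
      _ = _ := by ring
  have hAlt : ∀ i j, ψ i < ψ j → A i j = 1 := by
    intro i j hij
    have hne : i ≠ j := by rintro rfl; exact lt_irrefl _ hij
    rcases hApm i j hne with h | h
    · exact h
    · exfalso
      have h1 := hmono i j
      have h2 : (ε i : ℝ) * (ε j : ℝ) * (B i j : ℝ) = ((A i j : ℤ) : ℝ) := by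
        simp only [hA]; push_cast; ring
      rw [h2, h] at h1
      push_cast at h1
      linarith
  have hAgt : ∀ i j, ψ j < ψ i → A i j = -1 := by
    intro i j hij
    rw [hAsk j i, hAlt j i hij]
  -- sums below, above, in the class
  set lo : Fin k → ℤ := fun v => ∑ j ∈ univ.filter (fun j => ψ j < ψ v), ε j with hlo
  set hi : Fin k → ℤ := fun v => ∑ j ∈ univ.filter (fun j => ψ v < ψ j), ε j with hhi
  set cl : Fin k → Finset (Fin k) := fun v => univ.filter (fun j => ψ j = ψ v) with hcl
  have hsplit : ∀ (v : Fin k) {R : Type} [AddCommMonoid R] (f : Fin k → R),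
      ∑ j, f j = ∑ j ∈ univ.filter (fun j => ψ j < ψ v), f j + ∑ j ∈ cl v, f j +
        ∑ j ∈ univ.filter (fun j => ψ v < ψ j), f j := by
    intro v R _ f
    have h1 : (univ : Finset (Fin k)) = (univ.filter (fun j => ψ j < ψ v) ∪ cl v) ∪
        univ.filter (fun j => ψ v < ψ j) := by
      ext j
      simp only [hcl, mem_union, mem_filter, mem_univ, true_and, true_iff]
      rcases lt_trichotomy (ψ j) (ψ v) with h | h | h
      · exact Or.inl (Or.inl h)
      · exact Or.inl (Or.inr h)
      · exact Or.inr h
    conv_lhs => rw [h1]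
    rw [Finset.sum_union, Finset.sum_union]
    · rw [Finset.disjoint_filter]
      intro j _ h2 h3
      exact absurd h3 h2.ne
    · rw [Finset.disjoint_left]
      intro j hj hj'
      simp only [hcl, mem_union, mem_filter, mem_univ, true_and] at hj hj'
      rcases hj with h | h
      · exact lt_asymm h hj'
      · exact absurd h hj'.ne'
  set inn : Fin k → ℤ := fun v => ∑ j ∈ cl v, A v j * ε j with hinn
  have hAε : ∀ v, ∑ j, A v j * ε j = 0 := by
    intro v
    have h1 : ∑ j, A v j * ε j = ε v * ∑ j, B v j := by
      rw [Finset.mul_sum]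
      refine Finset.sum_congr rfl fun j _ => ?_
      simp only [hA]
      calc ε v * ε j * B v j * ε j = ε v * (ε j * ε j) * B v j := by ring
        _ = _ := by rw [hεsq j, mul_one]
    rw [h1, hreg, mul_zero]
  have e1 : ∀ v, inn v + hi v - lo v = 0 := by
    intro v
    have h1 := hAε v
    rw [hsplit v (fun j => A v j * ε j)] at h1
    have h2 : ∑ j ∈ univ.filter (fun j => ψ j < ψ v), A v j * ε j = - lo v := by
      simp only [hlo]
      rw [← Finset.sum_neg_distrib]
      refine Finset.sum_congr rfl fun j hj => ?_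
      rw [hAgt v j (mem_filter.1 hj).2]
      ring
    have h3 : ∑ j ∈ univ.filter (fun j => ψ v < ψ j), A v j * ε j = hi v := by
      simp only [hhi]
      refine Finset.sum_congr rfl fun j hj => ?_
      rw [hAlt v j (mem_filter.1 hj).2]
      ring
    rw [h2, h3] at h1
    simp only [hinn]
    linarith
  have e2 : ∀ v, ψ v * (inn v : ℝ) + ∑ j ∈ univ.filter (fun j => ψ v < ψ j), (ε j : ℝ) * ψ j -
      ∑ j ∈ univ.filter (fun j => ψ j < ψ v), (ε j : ℝ) * ψ j = 1 - (ε v : ℝ) / k := by
    intro v
    have h0 : ∑ j, ((A v j : ℝ) * ((ε j : ℝ) * ψ j)) = 1 - (ε v : ℝ) / k := by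
      have h1 : ∑ j, ((A v j : ℝ) * ((ε j : ℝ) * ψ j)) = (ε v : ℝ) * ∑ j, (B v j : ℝ) * ψ j := by
        rw [Finset.mul_sum]
        refine Finset.sum_congr rfl fun j _ => ?_
        simp only [hA]
        push_cast
        have h2 : (ε j : ℝ) * ε j = 1 := by exact_mod_cast hεsq j
        calc (ε v : ℝ) * ε j * B v j * (ε j * ψ j) = (ε v : ℝ) * (ε j * ε j) * (B v j * ψ j) := by
              ring
          _ = _ := by rw [h2, mul_one]
      rw [h1, hψ]
      have h2 : (ε v : ℝ) * ε v = 1 := by exact_mod_cast hεsq v
      rw [mul_sub, h2]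
      ring
    rw [hsplit v (fun j => ((A v j : ℝ) * ((ε j : ℝ) * ψ j)))] at h0
    have h2 : ∑ j ∈ univ.filter (fun j => ψ j < ψ v), ((A v j : ℝ) * ((ε j : ℝ) * ψ j)) =
        - ∑ j ∈ univ.filter (fun j => ψ j < ψ v), (ε j : ℝ) * ψ j := by
      rw [← Finset.sum_neg_distrib]
      refine Finset.sum_congr rfl fun j hj => ?_
      rw [hAgt v j (mem_filter.1 hj).2]
      push_cast
      ring
    have h3 : ∑ j ∈ univ.filter (fun j => ψ v < ψ j), ((A v j : ℝ) * ((ε j : ℝ) * ψ j)) =
        ∑ j ∈ univ.filter (fun j => ψ v < ψ j), (ε j : ℝ) * ψ j := by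
      refine Finset.sum_congr rfl fun j hj => ?_
      rw [hAlt v j (mem_filter.1 hj).2]
      push_cast
      ring
    have h4 : ∑ j ∈ cl v, ((A v j : ℝ) * ((ε j : ℝ) * ψ j)) = ψ v * (inn v : ℝ) := by
      simp only [hinn]
      push_cast
      rw [Finset.mul_sum]
      refine Finset.sum_congr rfl fun j hj => ?_
      have : ψ j = ψ v := (mem_filter.1 hj).2
      rw [this]
      ring
    rw [h2, h3, h4] at h0
    linarith
  have hclass : ∀ u v, ψ u = ψ v → lo u = lo v ∧ hi u = hi v ∧ cl u = cl v := by
    intro u v huv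
    simp only [hlo, hhi, hcl, huv, and_self]
  have e3 : ∀ u v, ψ u = ψ v → inn u = inn v ∧ ε u = ε v := by
    intro u v huv
    obtain ⟨h1, h2, _⟩ := hclass u v huv
    have h3 : inn u = inn v := by
      have := e1 u
      have := e1 v
      rw [h1, h2] at *
      linarith
    refine ⟨h3, ?_⟩
    have h4 := e2 u
    have h5 := e2 v
    rw [h3, huv] at h4
    have h6 : (ε u : ℝ) / k = (ε v : ℝ) / k := by linarith
    have h7 : (ε u : ℝ) = ε v := by
      field_simp at h6
      exact h6
    exact_mod_cast h7
  have e4 : ∀ v, inn v = 0 := by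
    intro v
    -- sum over the class
    have h1 : ∑ u ∈ cl v, ε u * inn u = 0 := by
      have h2 : ∑ u ∈ cl v, ε u * inn u = ∑ u ∈ cl v, ∑ j ∈ cl v, A u j := by
        refine Finset.sum_congr rfl fun u hu => ?_
        have huv : ψ u = ψ v := (mem_filter.1 hu).2
        simp only [hinn]
        rw [(hclass u v huv).2.2, Finset.mul_sum]
        refine Finset.sum_congr rfl fun j hj => ?_
        have hjv : ψ j = ψ v := (mem_filter.1 hj).2
        rw [(e3 u j (huv.trans hjv.symm)).2]
        calc ε j * (A u j * ε j) = A u j * (ε j * ε j) := by ring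
          _ = _ := by rw [hεsq j, mul_one]
      have h3 : ∑ u ∈ cl v, ∑ j ∈ cl v, A u j = - ∑ u ∈ cl v, ∑ j ∈ cl v, A u j := by
        conv_lhs => rw [Finset.sum_comm]
        rw [← Finset.sum_neg_distrib]
        refine Finset.sum_congr rfl fun j _ => ?_
        rw [← Finset.sum_neg_distrib]
        exact Finset.sum_congr rfl fun u _ => hAsk j u
      rw [h2]
      omega
    have h2 : ∑ u ∈ cl v, ε u * inn u = (cl v).card * (ε v * inn v) := by
      rw [← nsmul_eq_mul, ← Finset.sum_const]
      refine Finset.sum_congr rfl fun u hu => ?_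
      have huv : ψ u = ψ v := (mem_filter.1 hu).2
      rw [(e3 u v huv).1, (e3 u v huv).2]
    rw [h1] at h2
    have h3 : (cl v).card ≠ 0 := by
      rw [Finset.card_ne_zero]
      exact ⟨v, by simp [hcl]⟩
    have h4 : ((cl v).card : ℤ) ≠ 0 := by exact_mod_cast h3
    have h5 : ε v * inn v = 0 := (mul_eq_zero.1 h2.symm).resolve_left h4
    rcases hε v with h | h <;> rw [h] at h5 <;> linarith
  have e5 : ∀ v, 2 * lo v + (cl v).card * ε v = 1 := by
    intro v
    have h1 := hsum
    rw [hsplit v (fun j => ε j)] at h1
    have h2 : ∑ j ∈ cl v, ε j = (cl v).card * ε v := by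
      rw [← nsmul_eq_mul, ← Finset.sum_const]
      refine Finset.sum_congr rfl fun u hu => ?_
      exact (e3 u v (mem_filter.1 hu).2).2
    rw [h2] at h1
    have h3 := e1 v
    rw [e4 v] at h3
    simp only [hlo, hhi] at h1 h3 ⊢
    linarith
  -- rank
  set rk : Fin k → ℕ := fun v => (univ.filter (fun j => ψ j < ψ v)).card with hrk
  have e6 : ∀ n : ℕ, ∀ v, rk v = n → (cl v).card = 1 ∧ ε v = (-1) ^ rk v := by
    intro n
    induction n using Nat.strong_induction_on with
    | _ n ih =>
      intro v hv
      have hcpos : 0 < (cl v).card := by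
        rw [Finset.card_pos]
        exact ⟨v, by simp [hcl]⟩
      rcases Nat.eq_zero_or_pos n with h0 | h0
      · have h1 : univ.filter (fun j => ψ j < ψ v) = ∅ := by
          rw [← Finset.card_eq_zero]
          show rk v = 0
          rw [hv, h0]
        have h2 : lo v = 0 := by
          simp only [hlo]
          rw [h1, Finset.sum_empty]
        have h3 := e5 v
        rw [h2] at h3
        rw [hv, h0]
        rcases hε v with h | h
        · rw [h] at h3
          refine ⟨?_, by rw [h]; norm_num⟩
          have : ((cl v).card : ℤ) = 1 := by linarith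
          exact_mod_cast this
        · rw [h] at h3
          exfalso
          have : (0:ℤ) < (cl v).card := by exact_mod_cast hcpos
          linarith
      · have hne : (univ.filter (fun j => ψ j < ψ v)).Nonempty := by
          rw [← Finset.card_pos]
          show 0 < rk v
          rw [hv]; exact h0
        obtain ⟨u, hu, humax⟩ := Finset.exists_max_image _ ψ hne
        have huv : ψ u < ψ v := (mem_filter.1 hu).2
        have hdecomp : univ.filter (fun j => ψ j < ψ v) = univ.filter (fun j => ψ j < ψ u) ∪ cl u := by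
          ext j
          simp only [hcl, mem_union, mem_filter, mem_univ, true_and]
          constructor
          · intro hj
            have := humax j (by simp [hj])
            exact this.lt_or_eq
          · rintro (h | h)
            · exact h.trans huv
            · rw [h]; exact huv
        have hdisj : Disjoint (univ.filter (fun j => ψ j < ψ u)) (cl u) := by
          rw [Finset.disjoint_filter]
          intro j _ h2 h3
          exact absurd h3 h2.ne
        have hrkv : rk v = rk u + (cl u).card := by
          simp only [hrk]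
          rw [hdecomp, Finset.card_union_of_disjoint hdisj]
        have hclu : 0 < (cl u).card := by
          rw [Finset.card_pos]
          exact ⟨u, by simp [hcl]⟩
        obtain ⟨ih1, ih2⟩ := ih (rk u) (by omega) u rfl
        have hlov : lo v = lo u + ε u := by
          simp only [hlo]
          rw [hdecomp, Finset.sum_union hdisj]
          congr 1
          have : cl u = {u} := by
            obtain ⟨a, ha⟩ := Finset.card_eq_one.1 ih1
            have hua : u ∈ cl u := by simp [hcl]
            rw [ha, Finset.mem_singleton] at hua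
            rw [ha, hua]
          rw [this, Finset.sum_singleton]
        have h5 := e5 v
        have h6 := e5 u
        rw [ih1] at h6
        push_cast at h6
        rw [hrkv, ih1, pow_succ, ← ih2]
        have h7 : ((cl v).card : ℤ) * ε v = - ε u := by linarith
        have hcz : (0:ℤ) < (cl v).card := by exact_mod_cast hcpos
        rcases hε v with h | h <;> rcases hε u with h' | h' <;> rw [h, h'] at h7 ⊢
        · exfalso; linarith
        · refine ⟨?_, by norm_num⟩
          have : ((cl v).card : ℤ) = 1 := by linarith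
          exact_mod_cast this
        · refine ⟨?_, by norm_num⟩
          have : ((cl v).card : ℤ) = 1 := by linarith
          exact_mod_cast this
        · exfalso; linarith
  -- the potential is injective, the rank is a bijection
  have hinj : Function.Injective ψ := by
    intro u v huv
    have h1 := (e6 _ v rfl).1
    obtain ⟨a, ha⟩ := Finset.card_eq_one.1 h1
    have h2 : u ∈ cl v := by simp [hcl, huv]
    have h3 : v ∈ cl v := by simp [hcl]
    rw [ha, Finset.mem_singleton] at h2 h3
    rw [h2, h3]
  have hrklt : ∀ v, rk v < k := by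
    intro v
    have h1 : univ.filter (fun j => ψ j < ψ v) ⊂ univ := by
      rw [Finset.ssubset_iff_subset_ne]
      refine ⟨Finset.subset_univ _, fun h => ?_⟩
      have : v ∈ univ.filter (fun j => ψ j < ψ v) := by rw [h]; exact mem_univ v
      exact lt_irrefl _ (mem_filter.1 this).2
    have h2 := Finset.card_lt_card h1
    rw [Finset.card_univ, Fintype.card_fin] at h2
    exact h2
  have hrkmono : ∀ u v, ψ u < ψ v → rk u < rk v := by
    intro u v huv
    refine Finset.card_lt_card ?_
    rw [Finset.ssubset_iff_of_subset]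
    · exact ⟨u, by simp [huv], by simp⟩
    · intro j hj
      simp only [mem_filter, mem_univ, true_and] at hj ⊢
      exact hj.trans huv
  let ρ : Fin k → Fin k := fun v => ⟨rk v, hrklt v⟩
  have hρ : Function.Injective ρ := by
    intro u v huv
    have h1 : rk u = rk v := Fin.mk.inj_iff.1 huv
    rcases lt_trichotomy (ψ u) (ψ v) with h | h | h
    · exact absurd h1 (hrkmono u v h).ne
    · exact hinj h
    · exact absurd h1 (hrkmono v u h).ne'
  have hρb : Function.Bijective ρ := Finite.injective_iff_bijective.1 hρ
  let σ : Equiv.Perm (Fin k) := (Equiv.ofBijective ρ hρb).symm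
  have hσ : ∀ a, rk (σ a) = a.val := by
    intro a
    have : ρ (σ a) = a := (Equiv.ofBijective ρ hρb).apply_symm_apply a
    exact congrArg Fin.val this
  have hσε : ∀ a, ε (σ a) = (-1) ^ a.val := by
    intro a
    rw [(e6 _ (σ a) rfl).2, hσ]
  have hσlt : ∀ a b, a < b → ψ (σ a) < ψ (σ b) := by
    intro a b hab
    rcases lt_trichotomy (ψ (σ a)) (ψ (σ b)) with h | h | h
    · exact h
    · exact absurd (σ.injective (hinj h)) hab.ne
    · have h1 := hrkmono _ _ h
      rw [hσ, hσ] at h1
      exact absurd hab (not_lt_of_gt h1)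
  refine ⟨σ, fun a b => ?_⟩
  rw [hBA, hσε, hσε]
  unfold altS
  split_ifs with h1 h2
  · rw [hAlt _ _ (hσlt a b h1), pow_add]
    ring
  · rw [hAgt _ _ (hσlt b a h2), pow_add]
    ring
  · have hab : a = b := le_antisymm (not_lt.1 h2) (not_lt.1 h1)
    subst hab
    have h3 := hAsk (σ a) (σ a)
    have h4 : A (σ a) (σ a) = 0 := by omega
    rw [h4, mul_zero]

end H51.Car
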