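import Pool.Agent.H36.Car.P1a
import Pool.Agent.H36.Car.LemC

/-!
Module P1c: the flip lemma. A positive tournament which is not a carousel distinguishes a vertex `x`
from its shifted twin `ξ` (for suitable marks).
-/

set_option autoImplicit false

open Finset Filter Topology

namespace H51.Car

/-- the signs `ε` of the vertex `x`, a twin of `u` with `x → u` -/
def eps {k : ℕ} (B₀ : Fin k → Fin k → ℤ) (u i : Fin k) : ℤ := if i = u then 1 else B₀ u i

/-- the perturbed matrix on `Fin k` -/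
noncomputable def Nm {k : ℕ} (B₀ : Fin k → Fin k → ℤ) (u : Fin k) (l₀ : Fin k → Fin 3) (δ : ℝ)
    (i j : Fin k) : ℝ :=
  (B₀ i j : ℝ) - δ * hmk (l₀ i) (l₀ j) *
    ((eps B₀ u i : ℝ) * (eps B₀ u j : ℝ) * (B₀ i j : ℝ))

/-- the assertion on `Fin k` -/
def Good {k : ℕ} (B₀ : Fin k → Fin k → ℤ) (u : Fin k) (l₀ : Fin k → Fin 3) (δ θ : ℝ) : Prop :=
  Pos (Nm B₀ u l₀ δ) univ ∧ sg (Nm B₀ u l₀ δ) univ (fun i => -(eps B₀ u i : ℝ)) = -1 ∧
    sg (Nm B₀ u l₀ δ) univ (fun i => -(eps B₀ u i : ℝ) + θ) = 1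

lemma eps_pm {k : ℕ} {B₀ : Fin k → Fin k → ℤ} (hB : IsT B₀) (u i : Fin k) :
    eps B₀ u i = 1 ∨ eps B₀ u i = -1 := by
  unfold eps
  split_ifs with h
  · exact Or.inl rfl
  · exact hB.pm u i (Ne.symm h)

lemma Nm_skew {k : ℕ} {B₀ : Fin k → Fin k → ℤ} (hB : IsT B₀) (u : Fin k) (l₀ : Fin k → Fin 3)
    (δ : ℝ) (i j : Fin k) : Nm B₀ u l₀ δ j i = - Nm B₀ u l₀ δ i j := by
  unfold Nm
  rw [hB.skew i j]
  have h1 : hmk (l₀ j) (l₀ i) = hmk (l₀ i) (l₀ j) := by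
    unfold hmk
    congr 1
    simp only [eq_iff_iff]
    tauto
  rw [h1]
  push_cast
  ring

/-- the payoff of a kernel vector against the column `x` -/
lemma pay_x {k : ℕ} {B₀ : Fin k → Fin k → ℤ} (hB : IsT B₀) (u : Fin k) {w : Fin k → ℝ}
    (hw : ∑ i, w i * (B₀ i u : ℝ) = 0) : ∑ i, w i * (-(eps B₀ u i : ℝ)) = - w u := by
  have h1 : ∀ i, w i * (-(eps B₀ u i : ℝ)) = w i * (B₀ i u : ℝ) - (if i = u then w u else 0) := by
    intro i
    unfold eps
    split_ifs with h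
    · subst h
      rw [hB.diag i]
      push_cast
      ring
    · rw [hB.skew u i]
      push_cast
      ring
  rw [Finset.sum_congr rfl fun i _ => h1 i, Finset.sum_sub_distrib, hw]
  simp

lemma pay_ξ {k : ℕ} (e : Fin k → ℝ) (w : Fin k → ℝ) (θ : ℝ) :
    ∑ i, w i * (-(e i) + θ) = ∑ i, w i * (-(e i)) + θ * ∑ i, w i := by
  rw [Finset.mul_sum, ← Finset.sum_add_distrib]
  exact Finset.sum_congr rfl fun _ _ => by ring

/-- first case: the kernel vector is not constant -/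
lemma good_case1 {k : ℕ} (hodd : Odd k) {B₀ : Fin k → Fin k → ℤ} (hB : IsT B₀) {w₀ : Fin k → ℝ}
    (hw : Ker (fun i j => (B₀ i j : ℝ)) univ w₀) (u : Fin k) (hu : k * w₀ u < ∑ i, w₀ i) :
    Ev k (fun δ θ => Good B₀ u (fun _ => 0) δ θ) := by
  have hk0 : (0:ℝ) < k := by
    have : 0 < k := by obtain ⟨m, hm⟩ := hodd; omega
    exact_mod_cast this
  have hN : ∀ δ, Nm B₀ u (fun _ => 0) δ = fun i j => (B₀ i j : ℝ) := by
    intro δ
    funext i j
    unfold Nm hmk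
    simp
  have hNS : NS (fun i j => (B₀ i j : ℝ)) (univ.erase u) := by
    refine ns_isT hB ?_
    rw [Finset.card_erase_of_mem (mem_univ u), Finset.card_univ, Fintype.card_fin]
    obtain ⟨m, hm⟩ := hodd
    exact ⟨m, by omega⟩
  have hx := pay_x hB u (hw.2 u (mem_univ u))
  have hwu := hw.1 u (mem_univ u)
  have hθ : ∀ᶠ θ in 𝓝[<] (1 / (k:ℝ)), 0 < - w₀ u + θ * ∑ i, w₀ i := by
    have hc : Continuous (fun θ : ℝ => - w₀ u + θ * ∑ i, w₀ i) := by fun_prop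
    have h1 : 0 < - w₀ u + (1 / (k:ℝ)) * ∑ i, w₀ i := by
      have : w₀ u < (1 / (k:ℝ)) * ∑ i, w₀ i := by
        rw [one_div, inv_mul_eq_div, lt_div_iff₀ hk0]
        linarith
      linarith
    exact (hc.tendsto _).eventually (lt_mem_nhds h1) |>.filter_mono nhdsWithin_le_nhds
  unfold Ev
  refine Filter.Eventually.of_forall fun δ => ?_
  filter_upwards [hθ] with θ hθ
  unfold Good
  rw [hN]
  refine ⟨⟨⟨u, mem_univ u⟩, w₀, hw⟩, ?_, ?_⟩
  · refine (sg_eq (mem_univ u) hNS hw _).2 ?_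
    rw [hx]
    linarith
  · refine (sg_eq (mem_univ u) hNS hw _).1 ?_
    rw [pay_ξ, hx]
    exact hθ

lemma sum_pair {k : ℕ} (i j : Fin k) (X : Fin k → Fin k → ℝ) :
    ∑ a, ∑ b, (if a = i ∧ b = j then (1:ℝ) else 0) * X a b = X i j := by
  rw [Finset.sum_eq_single i]
  · rw [Finset.sum_eq_single j]
    · simp
    · intro b _ hb
      simp [hb]
    · intro h
      exact absurd (mem_univ j) h
  · intro a _ ha
    refine Finset.sum_eq_zero fun b _ => ?_
    simp [ha]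
  · intro h
    exact absurd (mem_univ i) h

lemma hmk_pair {k : ℕ} {i j : Fin k} (hij : i ≠ j) (a b : Fin k) :
    hmk (if a = i then 1 else if a = j then 2 else 0) (if b = i then 1 else if b = j then 2 else 0) =
      (if a = i ∧ b = j then (1:ℝ) else 0) + (if a = j ∧ b = i then 1 else 0) := by
  unfold hmk
  by_cases h1 : a = i
  · by_cases h2 : b = i
    · have h3 : ¬ b = j := fun h => hij (h2.symm.trans h)
      have h4 : ¬ a = j := fun h => hij (h1.symm.trans h)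
      simp [h1, h2, hij]
    · by_cases h3 : b = j
      · have h4 : ¬ a = j := fun h => hij (h1.symm.trans h)
        simp [h1, h3, hij, hij.symm]
      · simp [h1, h2, h3]
  · by_cases h4 : a = j
    · by_cases h2 : b = i
      · simp [h4, h2, hij, hij.symm]
      · by_cases h3 : b = j
        · simp [h4, h3, hij.symm]
        · simp [h4, h2, h3, hij.symm]
    · simp [h1, h4]

/-- the key identity -/
lemma key_id {k : ℕ} {B₀ : Fin k → Fin k → ℤ} {u : Fin k} {i j : Fin k} (hij : i ≠ j)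
    {δ : ℝ} {w : Fin k → ℝ}
    (hw : LK (Nm B₀ u (fun a => if a = i then 1 else if a = j then 2 else 0) δ) univ w)
    (g : Fin k → ℝ) :
    ∑ a, w a * ∑ b, (B₀ a b : ℝ) * g b =
      δ * (w i * ((eps B₀ u i : ℝ) * (eps B₀ u j : ℝ) * (B₀ i j : ℝ)) * g j +
        w j * ((eps B₀ u j : ℝ) * (eps B₀ u i : ℝ) * (B₀ j i : ℝ)) * g i) := by
  set X : Fin k → Fin k → ℝ := fun a b =>
    w a * ((eps B₀ u a : ℝ) * (eps B₀ u b : ℝ) * (B₀ a b : ℝ)) * g b with hX
  have h0 : ∑ b, g b * ∑ a, w a *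
      Nm B₀ u (fun a => if a = i then 1 else if a = j then 2 else 0) δ a b = 0 := by
    refine Finset.sum_eq_zero fun b _ => ?_
    rw [hw b (mem_univ b), mul_zero]
  have h1 : ∑ b, g b * ∑ a, w a *
      Nm B₀ u (fun a => if a = i then 1 else if a = j then 2 else 0) δ a b =
      ∑ a, w a * ∑ b, (B₀ a b : ℝ) * g b -
      δ * (∑ a, ∑ b, (if a = i ∧ b = j then (1:ℝ) else 0) * X a b +
        ∑ a, ∑ b, (if a = j ∧ b = i then (1:ℝ) else 0) * X a b) := by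
    have h2 : ∑ b, g b * ∑ a, w a *
        Nm B₀ u (fun a => if a = i then 1 else if a = j then 2 else 0) δ a b =
        ∑ a, ∑ b, g b * (w a *
          Nm B₀ u (fun a => if a = i then 1 else if a = j then 2 else 0) δ a b) := by
      rw [Finset.sum_comm]
      exact Finset.sum_congr rfl fun b _ => Finset.mul_sum _ _ _
    rw [h2, ← Finset.sum_add_distrib, Finset.mul_sum, ← Finset.sum_sub_distrib]
    refine Finset.sum_congr rfl fun a _ => ?_
    rw [← Finset.sum_add_distrib, Finset.mul_sum, Finset.mul_sum, ← Finset.sum_sub_distrib]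
    refine Finset.sum_congr rfl fun b _ => ?_
    unfold Nm
    rw [hmk_pair hij a b]
    simp only [hX]
    ring
  rw [h1, sum_pair, sum_pair] at h0
  simp only [hX] at h0
  linarith

/-- the potential exists -/
lemma exists_psi {k : ℕ} (hodd : Odd k) {B₀ : Fin k → Fin k → ℤ} (hB : IsT B₀) (u : Fin k)
    (hcol : ∀ j, ∑ i, B₀ i j = 0) (y : Fin k → ℝ) (hy : ∑ i, y i = 0) :
    ∃ ψ : Fin k → ℝ, ∀ i, ∑ j, (B₀ i j : ℝ) * ψ j = y i := by
  set Z : Finset (Fin k) := univ.erase u with hZ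
  have hNS : NS (fun i j => (B₀ i j : ℝ)) Z := by
    refine ns_isT hB ?_
    rw [hZ, Finset.card_erase_of_mem (mem_univ u), Finset.card_univ, Fintype.card_fin]
    obtain ⟨m, hm⟩ := hodd
    exact ⟨m, by omega⟩
  have hdet := (ns_iff _ _).1 hNS
  set A : Matrix Z Z ℝ := rm (fun i j => (B₀ i j : ℝ)) Z with hA
  set v : Z → ℝ := (A.det)⁻¹ • Matrix.mulVec A.adjugate (fun i : Z => y i) with hv
  have hAv : Matrix.mulVec A v = fun i : Z => y i := by
    rw [hv, Matrix.mulVec_smul, Matrix.mulVec_mulVec, Matrix.mul_adjugate, Matrix.smul_mulVec,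
      Matrix.one_mulVec, smul_smul, inv_mul_cancel₀ hdet, one_smul]
  set ψ : Fin k → ℝ := fun i => if hi : i ∈ Z then v ⟨i, hi⟩ else 0 with hψ
  have hu : u ∉ Z := by rw [hZ]; simp
  have h1 : ∀ i ∈ Z, ∑ j, (B₀ i j : ℝ) * ψ j = y i := by
    intro i hi
    rw [← Finset.add_sum_erase _ _ (mem_univ u), ← hZ]
    have h2 : ψ u = 0 := by simp only [hψ]; rw [dif_neg hu]
    rw [h2, mul_zero, zero_add]
    have h3 := congrFun hAv ⟨i, hi⟩
    simp only [Matrix.mulVec, dotProduct, hA, rm, Matrix.of_apply] at h3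
    rw [← h3, ← Finset.sum_attach, Finset.univ_eq_attach]
    refine Finset.sum_congr rfl fun j _ => ?_
    simp only [hψ]
    rw [dif_pos j.2]
  refine ⟨ψ, fun i => ?_⟩
  by_cases hi : i ∈ Z
  · exact h1 i hi
  · have hiu : i = u := by
      by_contra hne
      exact hi (Finset.mem_erase.2 ⟨hne, mem_univ i⟩)
    subst hiu
    have h2 : ∑ a, ∑ j, (B₀ a j : ℝ) * ψ j = 0 := by
      rw [Finset.sum_comm]
      refine Finset.sum_eq_zero fun j _ => ?_
      rw [← Finset.sum_mul]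
      have : (∑ a, (B₀ a j : ℝ)) = ((∑ a, B₀ a j : ℤ) : ℝ) := by push_cast; rfl
      rw [this, hcol j]
      simp
    rw [← Finset.add_sum_erase _ _ (mem_univ i), ← hZ] at h2 hy
    have h3 : ∑ a ∈ Z, ∑ j, (B₀ a j : ℝ) * ψ j = ∑ a ∈ Z, y a :=
      Finset.sum_congr rfl fun a ha => h1 a ha
    rw [h3] at h2
    linarith

/-- second case: the kernel vector is constant -/
lemma good_case2 {k : ℕ} (hk : 5 ≤ k) (hodd : Odd k) {B₀ : Fin k → Fin k → ℤ} (hB : IsT B₀)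
    {w₀ : Fin k → ℝ} (hw : Ker (fun i j => (B₀ i j : ℝ)) univ w₀) (u : Fin k)
    (hu : ∀ i, w₀ i = w₀ u) (hnA : ¬ IsAlt B₀) :
    ∃ l₀ : Fin k → Fin 3, Ev k (fun δ θ => Good B₀ u l₀ δ θ) := by
  have hk0 : (0:ℝ) < k := by
    have : 0 < k := by omega
    exact_mod_cast this
  have hwu := hw.1 u (mem_univ u)
  have hcol : ∀ j, ∑ i, B₀ i j = 0 := by
    intro j
    have h1 := hw.2 j (mem_univ j)
    simp only [hu] at h1
    rw [← Finset.mul_sum] at h1
    have h2 := (mul_eq_zero.1 h1).resolve_left hwu.ne'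
    exact_mod_cast h2
  have hrow : ∀ i, ∑ j, B₀ i j = 0 := by
    intro i
    have h1 : ∑ j, B₀ i j = - ∑ j, B₀ j i := by
      rw [← Finset.sum_neg_distrib]
      exact Finset.sum_congr rfl fun j _ => hB.skew j i
    rw [h1, hcol, neg_zero]
  have hεsum : ∑ i, eps B₀ u i = 1 := by
    have h1 : ∀ i, eps B₀ u i = B₀ u i + (if i = u then 1 else 0) := by
      intro i
      unfold eps
      split_ifs with h
      · subst h
        rw [hB.diag i]; norm_num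
      · ring
    rw [Finset.sum_congr rfl fun i _ => h1 i, Finset.sum_add_distrib, hrow]
    simp
  have hεsumR : ∑ i, (eps B₀ u i : ℝ) = 1 := by exact_mod_cast hεsum
  obtain ⟨ψ, hψ⟩ := exists_psi hodd hB u hcol (fun i => (eps B₀ u i : ℝ) - 1 / (k:ℝ)) (by
    rw [Finset.sum_sub_distrib, hεsumR, Finset.sum_const, Finset.card_univ, Fintype.card_fin,
      nsmul_eq_mul]
    field_simp
    ring)
  have hex : ∃ i j, 0 < (eps B₀ u i : ℝ) * (eps B₀ u j : ℝ) * (B₀ i j : ℝ) * (ψ i - ψ j) := by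
    by_contra hcon
    push Not at hcon
    exact hnA (lemmaC k hodd B₀ hB hrow (eps B₀ u) (eps_pm hB u) hεsum ψ hψ hcon)
  obtain ⟨i, j, hpos⟩ := hex
  have hij : i ≠ j := by
    rintro rfl
    simp at hpos
  set a : ℝ := (eps B₀ u i : ℝ) * (eps B₀ u j : ℝ) * (B₀ i j : ℝ) with ha
  have ha0 : a ≠ 0 := by
    intro h
    rw [h, zero_mul] at hpos
    exact lt_irrefl _ hpos
  have haji : (eps B₀ u j : ℝ) * (eps B₀ u i : ℝ) * (B₀ j i : ℝ) = - a := by
    rw [ha, hB.skew i j]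
    push_cast
    ring
  set l₀ : Fin k → Fin 3 := fun a => if a = i then 1 else if a = j then 2 else 0 with hl₀
  refine ⟨l₀, ?_⟩
  have hNS0 : NS (fun i j => (B₀ i j : ℝ)) (univ.erase u) := by
    refine ns_isT hB ?_
    rw [Finset.card_erase_of_mem (mem_univ u), Finset.card_univ, Fintype.card_fin]
    obtain ⟨m, hm⟩ := hodd
    exact ⟨m, by omega⟩
  have hlim : ∀ a b, Tendsto (fun δ => Nm B₀ u l₀ δ a b) (𝓝 (0:ℝ)) (𝓝 ((B₀ a b : ℝ))) := by
    intro a b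
    have hc : Continuous (fun δ => Nm B₀ u l₀ δ a b) := by
      unfold Nm
      fun_prop
    have h1 := hc.tendsto 0
    have h2 : Nm B₀ u l₀ 0 a b = (B₀ a b : ℝ) := by
      unfold Nm
      ring
    rw [h2] at h1
    exact h1
  obtain ⟨w, hw1, hw2⟩ := persist_ker (F := 𝓝 (0:ℝ)) (M := fun δ => Nm B₀ u l₀ δ)
    (M₀ := fun i j => (B₀ i j : ℝ)) (mem_univ u) (fun i _ j _ => hlim i j)
    (fun δ i _ j _ => Nm_skew hB u l₀ δ i j) hNS0 hw
  have hNSe : ∀ᶠ δ in 𝓝 (0:ℝ), NS (Nm B₀ u l₀ δ) (univ.erase u) :=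
    ns_persist (M := fun δ => Nm B₀ u l₀ δ) (fun i _ j _ => hlim i j) hNS0
  have hxe : ∀ᶠ δ in 𝓝 (0:ℝ), ∑ i, w δ i * (-(eps B₀ u i : ℝ)) < 0 := by
    have h1 : Tendsto (fun δ => ∑ i, w δ i * (-(eps B₀ u i : ℝ))) (𝓝 (0:ℝ))
        (𝓝 (∑ i, w₀ i * (-(eps B₀ u i : ℝ)))) :=
      tendsto_finsetSum _ fun i _ => (hw2 i (mem_univ i)).mul_const _
    have h2 : ∑ i, w₀ i * (-(eps B₀ u i : ℝ)) < 0 := by
      rw [pay_x hB u (hw.2 u (mem_univ u))]
      linarith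
    exact h1.eventually (gt_mem_nhds h2)
  unfold Ev
  have hpos' : ∀ᶠ δ in 𝓝[>] (0:ℝ), 0 < δ := eventually_mem_nhdsWithin
  filter_upwards [hw1.filter_mono nhdsWithin_le_nhds, hNSe.filter_mono nhdsWithin_le_nhds,
    hxe.filter_mono nhdsWithin_le_nhds, hpos'] with δ h1 h2 h3 hδ
  -- the two identities
  have hA1 := key_id (B₀ := B₀) (u := u) hij h1.2 (fun _ => 1)
  have hA2 := key_id (B₀ := B₀) (u := u) hij h1.2 ψ
  rw [haji, ← ha] at hA1 hA2
  have hwij : w δ i = w δ j := by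
    have h4 : ∑ a, w δ a * ∑ b, (B₀ a b : ℝ) * (1:ℝ) = 0 := by
      refine Finset.sum_eq_zero fun a _ => ?_
      have : ∑ b, (B₀ a b : ℝ) * (1:ℝ) = ((∑ b, B₀ a b : ℤ) : ℝ) := by push_cast; simp
      rw [this, hrow]
      simp
    rw [h4] at hA1
    have h5 : δ * (a * (w δ i - w δ j)) = 0 := by rw [hA1]; ring
    have h6 := (mul_eq_zero.1 h5).resolve_left hδ.ne'
    have h7 := (mul_eq_zero.1 h6).resolve_left ha0
    linarith
  have hS : ∑ b, w δ b * (-(eps B₀ u b : ℝ)) = δ * (w δ i * (a * (ψ i - ψ j))) -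
      (1 / (k:ℝ)) * ∑ b, w δ b := by
    have h4 : ∑ a, w δ a * ∑ b, (B₀ a b : ℝ) * ψ b =
        - ∑ b, w δ b * (-(eps B₀ u b : ℝ)) - (1 / (k:ℝ)) * ∑ b, w δ b := by
      rw [Finset.mul_sum, ← Finset.sum_neg_distrib, ← Finset.sum_sub_distrib]
      refine Finset.sum_congr rfl fun b _ => ?_
      rw [hψ]
      ring
    rw [h4, ← hwij] at hA2
    linear_combination -hA2
  have hwi : 0 < w δ i := h1.1 i (mem_univ i)
  have hθ : ∀ᶠ θ in 𝓝[<] (1 / (k:ℝ)), 0 < ∑ b, w δ b * (-(eps B₀ u b : ℝ)) + θ * ∑ b, w δ b := by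
    have hc : Continuous (fun θ : ℝ => ∑ b, w δ b * (-(eps B₀ u b : ℝ)) + θ * ∑ b, w δ b) := by
      fun_prop
    have h4 : 0 < ∑ b, w δ b * (-(eps B₀ u b : ℝ)) + (1 / (k:ℝ)) * ∑ b, w δ b := by
      rw [hS]
      have : 0 < δ * (w δ i * (a * (ψ i - ψ j))) := mul_pos hδ (mul_pos hwi hpos)
      linarith
    exact (hc.tendsto _).eventually (lt_mem_nhds h4) |>.filter_mono nhdsWithin_le_nhds
  filter_upwards [hθ] with θ hθ
  refine ⟨⟨⟨u, mem_univ u⟩, w δ, h1⟩, ?_, ?_⟩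
  · exact (sg_eq (mem_univ u) h2 h1 _).2 h3
  · refine (sg_eq (mem_univ u) h2 h1 _).1 ?_
    rw [pay_ξ]
    exact hθ

lemma exists_good {k : ℕ} (hk : 5 ≤ k) (hodd : Odd k) {B₀ : Fin k → Fin k → ℤ} (hB : IsT B₀)
    (hP : Pos (fun i j => (B₀ i j : ℝ)) univ) (hnA : ¬ IsAlt B₀) :
    ∃ (u : Fin k) (l₀ : Fin k → Fin 3), Ev k (fun δ θ => Good B₀ u l₀ δ θ) := by
  obtain ⟨⟨x, _⟩, w₀, hw⟩ := hP
  obtain ⟨u, _, hu⟩ := Finset.exists_min_image univ w₀ ⟨x, mem_univ x⟩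
  refine ⟨u, ?_⟩
  by_cases hconst : ∀ i, w₀ i = w₀ u
  · exact good_case2 hk hodd hB hw u hconst hnA
  · push Not at hconst
    obtain ⟨i, hi⟩ := hconst
    refine ⟨fun _ => 0, good_case1 hodd hB hw u ?_⟩
    have h1 : ∑ _i : Fin k, w₀ u < ∑ i, w₀ i :=
      Finset.sum_lt_sum (fun i _ => hu i (mem_univ i))
        ⟨i, mem_univ i, lt_of_le_of_ne (hu i (mem_univ i)) (Ne.symm hi)⟩
    rw [Finset.sum_const, Finset.card_univ, Fintype.card_fin, nsmul_eq_mul] at h1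
    exact h1

section P1
variable {κ : Type*} [Fintype κ] [DecidableEq κ]

/-- P1c (uses lemmaC). -/
theorem ev_flip (k : ℕ) (hk : 5 ≤ k) (hodd : Odd k) (x ξ : κ) (hne : x ≠ ξ) :
    Ev k (fun δ θ => ∀ B₀ : Fin k → Fin k → ℤ, IsT B₀ →
      Pos (fun i j => (B₀ i j : ℝ)) univ → ¬ IsAlt B₀ →
      ∃ (u : Fin k) (l₀ : Fin k → Fin 3), ∀ B : κ → κ → ℤ, IsT B → Twin x ξ B →
        ∀ l : κ → Fin 3, ∀ e : Fin k → κ, Function.Injective e → (∀ i, e i ≠ x ∧ e i ≠ ξ) →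
        (∀ i j, B (e i) (e j) = B₀ i j) → (∀ i, l (e i) = l₀ i) →
        (∀ i, i ≠ u → B (e i) x = B₀ i u) → B x (e u) = 1 →
        Pos (DM x ξ B l δ θ) (univ.image e) ∧
        sg (DM x ξ B l δ θ) (univ.image e) (fun i => DM x ξ B l δ θ i x) = -1 ∧
        sg (DM x ξ B l δ θ) (univ.image e) (fun i => DM x ξ B l δ θ i ξ) = 1) := by
  classical
  have h1 : Ev k (fun δ θ => ∀ B₀ ∈ {B₀ : Fin k → Fin k → ℤ | IsT B₀},
      Pos (fun i j => (B₀ i j : ℝ)) univ → ¬ IsAlt B₀ →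
      ∃ (u : Fin k) (l₀ : Fin k → Fin 3), Good B₀ u l₀ δ θ) := by
    refine Ev.all_finite finite_isT fun B₀ hB₀ => ?_
    by_cases h : Pos (fun i j => (B₀ i j : ℝ)) univ ∧ ¬ IsAlt B₀
    · obtain ⟨u, l₀, hE⟩ := exists_good hk hodd hB₀ h.1 h.2
      exact hE.mono fun δ θ h _ _ => ⟨u, l₀, h⟩
    · exact (Ev.pos k).mono fun δ θ _ a b => absurd ⟨a, b⟩ h
  refine h1.mono fun δ θ h B₀ hB₀ hP hnA => ?_
  obtain ⟨u, l₀, hG1, hG2, hG3⟩ := h B₀ hB₀ hP hnA
  refine ⟨u, l₀, fun B hB hT l e he hex heB hl hx hxu => ?_⟩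
  have hBx : ∀ i, B x (e i) = eps B₀ u i := by
    intro i
    unfold eps
    split_ifs with hi
    · rw [hi]; exact hxu
    · rw [hB.skew (e i) x, hx i hi, hB₀.skew u i]
      ring
  have hMN : ∀ i j, DM x ξ B l δ θ (e i) (e j) = Nm B₀ u l₀ δ i j := by
    intro i j
    unfold DM Nm
    rw [if_neg (fun h => h.elim (hex i).1 (hex j).1), if_neg (fun h => (hex i).2 h.1),
      if_neg (hex j).2, if_neg (hex i).2, heB, hl, hl, hBx, hBx]
  have hcx : ∀ i, DM x ξ B l δ θ (e i) x = -(eps B₀ u i : ℝ) := by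
    intro i
    unfold DM
    rw [if_pos (Or.inr rfl), ← hBx i, hB.skew x (e i)]
    push_cast
    rfl
  have hcξ : ∀ i, DM x ξ B l δ θ (e i) ξ = -(eps B₀ u i : ℝ) + θ := by
    intro i
    unfold DM
    rw [if_neg (fun h => h.elim (hex i).1 hne.symm), if_neg (fun h => (hex i).2 h.1), if_pos rfl,
      hT.2 (e i) (hex i).1 (hex i).2, ← hBx i, hB.skew x (e i)]
    push_cast
    rfl
  refine ⟨(pos_image he hMN).2 hG1, ?_, ?_⟩
  · rw [sg_image he hMN]
    have : (fun i => DM x ξ B l δ θ i x) ∘ e = fun i => -(eps B₀ u i : ℝ) := by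
      funext i
      exact hcx i
    rw [this]
    exact hG2
  · rw [sg_image he hMN]
    have : (fun i => DM x ξ B l δ θ i ξ) ∘ e = fun i => -(eps B₀ u i : ℝ) + θ := by
      funext i
      exact hcξ i
    rw [this]
    exact hG3

end P1

end H51.Car
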