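import Pool.Agent.H36.Car.Pert

/-!
Module P1a: genericity of the perturbed payoff matrices, carousels avoiding `x, ξ` stay positive,
no positive set contains both `x` and `ξ`.
-/

set_option autoImplicit false

open Finset Filter Topology

namespace H51.Car

section P1
variable {κ : Type*} [Fintype κ] [DecidableEq κ]

theorem gen_of_isT (B : κ → κ → ℤ) (hB : IsT B) : Gen (fun i j => (B i j : ℝ)) univ := by
  refine ⟨fun i _ j _ => ?_, fun Z _ hZ => ns_isT hB hZ⟩
  show ((B j i : ℤ) : ℝ) = - (B i j : ℝ)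
  rw [hB.skew i j]
  push_cast
  rfl

omit [Fintype κ] in
lemma hmk_comm (a b : Fin 3) : hmk a b = hmk b a := by
  unfold hmk
  congr 1
  simp only [eq_iff_iff]
  tauto

omit [Fintype κ] in
lemma DM_skew (x ξ : κ) (B : κ → κ → ℤ) (hB : IsT B) (l : κ → Fin 3) (δ θ : ℝ) (i j : κ) :
    DM x ξ B l δ θ j i = - DM x ξ B l δ θ i j := by
  have hs : ∀ i j, ((B j i : ℤ) : ℝ) = - (B i j : ℝ) := fun i j => by
    rw [hB.skew i j]; push_cast; rfl
  unfold DM
  by_cases h1 : i = x ∨ j = x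
  · rw [if_pos h1, if_pos h1.symm]
    exact hs i j
  · rw [if_neg h1, if_neg (fun h => h1 h.symm)]
    by_cases h2 : i = ξ
    · by_cases h3 : j = ξ
      · rw [if_pos ⟨h3, h2⟩, if_pos ⟨h2, h3⟩, neg_zero]
      · rw [if_neg (fun h => h3 h.1), if_pos h2, if_neg (fun h => h3 h.2), if_neg h3, if_pos h2,
          hs i j]
        ring
    · by_cases h3 : j = ξ
      · rw [if_neg (fun h => h2 h.2), if_neg h2, if_pos h3, if_neg (fun h => h2 h.1), if_pos h3,
          hs i j]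
        ring
      · rw [if_neg (fun h => h2 h.2), if_neg h2, if_neg h3, if_neg (fun h => h2 h.1), if_neg h3,
          if_neg h2, hs i j, hmk_comm]
        ring

omit [Fintype κ] in
/-- The entries are `a - δ b + θ c`. -/
lemma DM_affine (x ξ : κ) (B : κ → κ → ℤ) (l : κ → Fin 3) : ∃ b c : κ → κ → ℝ, IsT B →
    ∀ δ θ i j, DM x ξ B l δ θ i j = (B i j : ℝ) - δ * b i j + θ * c i j := by
  refine ⟨fun i j => if i = x ∨ j = x then 0 else if i = ξ ∧ j = ξ then 0 else if j = ξ then 0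
      else if i = ξ then 0 else hmk (l i) (l j) * ((B x i : ℝ) * (B x j : ℝ) * (B i j : ℝ)),
    fun i j => if i = x ∨ j = x then 0 else if i = ξ ∧ j = ξ then 0 else if j = ξ then 1
      else if i = ξ then -1 else 0, fun hB δ θ i j => ?_⟩
  unfold DM
  by_cases h1 : i = x ∨ j = x
  · simp [h1]
  · by_cases h2 : i = ξ ∧ j = ξ
    · obtain ⟨h3, h4⟩ := h2
      subst h3
      subst h4
      have : B j j = 0 := hB.diag j
      simp [this]
    · by_cases h3 : j = ξ
      · simp only [if_neg h1, if_neg h2, if_pos h3]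
        ring
      · by_cases h4 : i = ξ
        · simp only [if_neg h1, if_neg h2, if_neg h3, if_pos h4]
          ring
        · simp only [if_neg h1, if_neg h2, if_neg h3, if_neg h4]
          ring

lemma eventually_eval_ne (P : Polynomial ℝ) (hP : P ≠ 0) (c : ℝ) :
    ∀ᶠ θ in 𝓝[<] c, P.eval θ ≠ 0 := by
  have hfin : {θ : ℝ | P.IsRoot θ}.Finite := Polynomial.finite_setOfPred_isRoot hP
  have hcl : IsClosed ({θ : ℝ | P.IsRoot θ} \ {c}) := (hfin.subset Set.sdiff_subset).isClosed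
  have h1 : ∀ᶠ θ in 𝓝 c, θ ∉ {θ : ℝ | P.IsRoot θ} \ {c} :=
    hcl.isOpen_compl.mem_nhds (by simp)
  have h2 : ∀ᶠ θ in 𝓝[<] c, θ < c := eventually_mem_nhdsWithin
  filter_upwards [h1.filter_mono nhdsWithin_le_nhds, h2] with θ h3 h4 h5
  exact h3 ⟨h5, h4.ne⟩

omit [Fintype κ] in
lemma ev_ns (k : ℕ) (x ξ : κ) (B : κ → κ → ℤ) (hB : IsT B) (l : κ → Fin 3) (Z : Finset κ)
    (hZ : Even Z.card) : Ev k (fun δ θ => NS (DM x ξ B l δ θ) Z) := by
  obtain ⟨b, c, hbc⟩ := DM_affine x ξ B l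
  have hbc := hbc hB
  have h0 : NS (fun i j => (B i j : ℝ)) Z := ns_isT hB hZ
  have h1 : ∀ᶠ δ in 𝓝 (0:ℝ), NS (fun i j => (B i j : ℝ) - δ * b i j) Z := by
    refine ns_persist (M := fun δ i j => (B i j : ℝ) - δ * b i j) (fun i _ j _ => ?_) h0
    have : Continuous (fun δ : ℝ => (B i j : ℝ) - δ * b i j) := by fun_prop
    have h2 := this.tendsto 0
    simpa using h2
  unfold Ev
  filter_upwards [h1.filter_mono nhdsWithin_le_nhds] with δ hδ
  rw [ns_iff] at hδ
  set A : Matrix Z Z ℝ := rm (fun i j => (B i j : ℝ) - δ * b i j) Z with hA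
  set C : Matrix Z Z ℝ := rm c Z with hC
  set Q : Polynomial ℝ := (A.map Polynomial.C + (Polynomial.X : Polynomial ℝ) •
    C.map Polynomial.C).det with hQ
  have hev : ∀ θ : ℝ, Q.eval θ = (rm (DM x ξ B l δ θ) Z).det := by
    intro θ
    rw [hQ, ← Polynomial.coe_evalRingHom, RingHom.map_det]
    congr 1
    ext i j
    simp only [RingHom.mapMatrix_apply, Matrix.map_apply, Matrix.add_apply, Matrix.smul_apply,
      smul_eq_mul, Polynomial.coe_evalRingHom, Polynomial.eval_add, Polynomial.eval_mul,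
      Polynomial.eval_X, Polynomial.eval_C, hA, hC, rm, Matrix.of_apply]
    rw [hbc]
  have hQ0 : Q ≠ 0 := by
    intro h
    have h2 := hev 0
    rw [h, Polynomial.eval_zero] at h2
    apply hδ
    rw [h2]
    congr 1
    ext i j
    simp only [hA, rm, Matrix.of_apply]
    rw [hbc]
    ring
  filter_upwards [eventually_eval_ne Q hQ0 (1 / (k:ℝ))] with θ hθ
  rw [ns_iff, ← hev]
  exact hθ

theorem ev_gen (k : ℕ) (hk : 5 ≤ k) (x ξ : κ) (hne : x ≠ ξ) :
    Ev k (fun δ θ => ∀ B : κ → κ → ℤ, IsT B → Twin x ξ B → ∀ l : κ → Fin 3,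
      Gen (DM x ξ B l δ θ) univ) := by
  have h1 : Ev k (fun δ θ => ∀ B ∈ {B : κ → κ → ℤ | IsT B}, ∀ l : κ → Fin 3, ∀ Z : Finset κ,
      Even Z.card → NS (DM x ξ B l δ θ) Z) := by
    refine Ev.all_finite finite_isT fun B hB => Ev.all fun l => Ev.all fun Z => ?_
    by_cases hZ : Even Z.card
    · exact (ev_ns k x ξ B hB l Z hZ).mono fun δ θ h _ => h
    · exact (Ev.pos k).mono fun δ θ _ h => absurd h hZ
  refine h1.mono fun δ θ h B hB _ l => ⟨fun i _ j _ => DM_skew x ξ B hB l δ θ i j, fun Z _ hZ => ?_⟩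
  exact h B hB l Z hZ

/-- The alternating form has constant column sums zero (odd order). -/
lemma altS_sum {r : ℕ} (hr : Odd r) (b : Fin r) : ∑ a, altS r a b = 0 := by
  -- `g c = (-1)^c`, partial sums
  have hpart : ∀ n : ℕ, ∑ c ∈ range n, (-1 : ℤ) ^ c = if Even n then 0 else 1 := by
    intro n
    induction n with
    | zero => simp
    | succ n ih =>
      rw [Finset.sum_range_succ, ih]
      rcases Nat.even_or_odd n with h | h
      · have h2 : ¬ Even (n+1) := by rw [Nat.not_even_iff_odd]; exact h.add_one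
        simp [h, h2, h.neg_one_pow]
      · have h2 : Even (n+1) := h.add_one
        have h3 : ¬ Even n := Nat.not_even_iff_odd.2 h
        simp [h2, h3, h.neg_one_pow]
  have h1 : ∀ a : Fin r, altS r a b = (-1) ^ b.val * (if a.val < b.val then (-1) ^ a.val else
      if b.val < a.val then -(-1) ^ a.val else 0) := by
    intro a
    unfold altS
    simp only [Fin.lt_def]
    split_ifs
    · rw [pow_add]; ring
    · rw [pow_add]; ring
    · simp
  rw [Finset.sum_congr rfl fun a _ => h1 a, ← Finset.mul_sum,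
    Fin.sum_univ_eq_sum_range (fun a => if a < b.val then (-1 : ℤ) ^ a else
      if b.val < a then -(-1) ^ a else 0) r]
  have hb := b.isLt
  have h2 : ∑ a ∈ range r, (if a < b.val then (-1 : ℤ) ^ a else
      if b.val < a then -(-1) ^ a else 0) = ∑ c ∈ range b.val, (-1 : ℤ) ^ c -
      (∑ c ∈ range r, (-1 : ℤ) ^ c - ∑ c ∈ range (b.val + 1), (-1 : ℤ) ^ c) := by
    rw [Finset.range_eq_Ico, ← Finset.sum_Ico_consecutive _ (Nat.zero_le b.val) hb.le,
      Finset.sum_eq_sum_Ico_succ_bot hb]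
    have e1 : ∑ a ∈ Ico 0 b.val, (if a < b.val then (-1 : ℤ) ^ a else
      if b.val < a then -(-1) ^ a else 0) = ∑ c ∈ range b.val, (-1 : ℤ) ^ c := by
      rw [← Finset.range_eq_Ico]
      refine Finset.sum_congr rfl fun a ha => ?_
      rw [if_pos (Finset.mem_range.1 ha)]
    have e2 : ∑ a ∈ Ico (b.val + 1) r, (if a < b.val then (-1 : ℤ) ^ a else
      if b.val < a then -(-1) ^ a else 0) = - ∑ c ∈ Ico (b.val + 1) r, (-1 : ℤ) ^ c := by
      rw [← Finset.sum_neg_distrib]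
      refine Finset.sum_congr rfl fun a ha => ?_
      have := Finset.mem_Ico.1 ha
      rw [if_neg (by omega), if_pos (by omega)]
    have e3 : ∑ c ∈ Ico 0 r, (-1 : ℤ) ^ c = ∑ c ∈ Ico 0 (b.val + 1), (-1 : ℤ) ^ c +
        ∑ c ∈ Ico (b.val + 1) r, (-1 : ℤ) ^ c :=
      (Finset.sum_Ico_consecutive _ (Nat.zero_le _) hb).symm
    rw [e1, e2, e3]
    simp only [lt_self_iff_false, if_false, Finset.range_eq_Ico]
    ring
  rw [h2, hpart, hpart, hpart]
  have hr2 : ¬ Even r := Nat.not_even_iff_odd.2 hr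
  rcases Nat.even_or_odd b.val with h | h
  · have h3 : ¬ Even (b.val + 1) := by rw [Nat.not_even_iff_odd]; exact h.add_one
    simp [h, hr2, h3]
  · have h3 : Even (b.val + 1) := h.add_one
    have h4 : ¬ Even b.val := Nat.not_even_iff_odd.2 h
    simp [hr2, h3, h4]

omit [Fintype κ] in
/-- The constant vector is a kernel vector on a carousel. -/
lemma ker_altOn {r : ℕ} (hr : Odd r) {B : κ → κ → ℤ} {S : Finset κ} (h : AltOn r B S) :
    Ker (fun i j => (B i j : ℝ)) S (fun _ => 1) := by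
  obtain ⟨e, ⟨he, heB⟩, rfl⟩ := h
  refine ⟨fun _ _ => one_pos, fun j hj => ?_⟩
  obtain ⟨b, _, rfl⟩ := Finset.mem_image.1 hj
  rw [Finset.sum_image (fun a _ b _ h => he h)]
  have h1 : ∑ a, altS r a b = 0 := altS_sum hr b
  have h2 : ∑ a : Fin r, (1:ℝ) * (B (e a) (e b) : ℝ) = ((∑ a, altS r a b : ℤ) : ℝ) := by
    push_cast
    refine Finset.sum_congr rfl fun a _ => ?_
    rw [heB, one_mul]
  rw [h2, h1]
  simp

omit [Fintype κ] in
lemma altOn_card {r : ℕ} {B : κ → κ → ℤ} {S : Finset κ} (h : AltOn r B S) : S.card = r := by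
  obtain ⟨e, ⟨he, _⟩, rfl⟩ := h
  rw [Finset.card_image_of_injective _ he]
  simp

theorem ev_alt (k : ℕ) (hk : 5 ≤ k) (hodd : Odd k) (x ξ : κ) (hne : x ≠ ξ) :
    Ev k (fun δ θ => ∀ B : κ → κ → ℤ, IsT B → Twin x ξ B → ∀ l : κ → Fin 3,
      ∀ S : Finset κ, x ∉ S → ξ ∉ S → AltOn (k + 2) B S → Pos (DM x ξ B l δ θ) S) := by
  have hodd2 : Odd (k + 2) := by
    obtain ⟨m, hm⟩ := hodd
    exact ⟨m + 1, by omega⟩
  have h1 : Ev k (fun δ θ => ∀ B ∈ {B : κ → κ → ℤ | IsT B}, ∀ l : κ → Fin 3, ∀ S : Finset κ,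
      x ∉ S → ξ ∉ S → AltOn (k + 2) B S → Pos (DM x ξ B l δ θ) S) := by
    refine Ev.all_finite finite_isT fun B hB => Ev.all fun l => Ev.all fun S => ?_
    by_cases hS : x ∉ S ∧ ξ ∉ S ∧ AltOn (k + 2) B S
    · obtain ⟨hx, hξ, hA⟩ := hS
      have hcard := altOn_card hA
      have hSne : S.Nonempty := by
        rw [← Finset.card_pos]; omega
      obtain ⟨i₀, hi₀⟩ := hSne
      obtain ⟨b, c, hbc⟩ := DM_affine x ξ B l
      have hbc := hbc hB
      have hc0 : ∀ i ∈ S, ∀ j ∈ S, ∀ δ θ : ℝ, DM x ξ B l δ θ i j = DM x ξ B l δ 0 i j := by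
        intro i hi j hj δ θ
        have n1 : i ≠ x := fun h => hx (h ▸ hi)
        have n2 : j ≠ x := fun h => hx (h ▸ hj)
        have n3 : i ≠ ξ := fun h => hξ (h ▸ hi)
        have n4 : j ≠ ξ := fun h => hξ (h ▸ hj)
        unfold DM
        simp [n1, n2, n3, n4]
      have hNS : NS (fun i j => (B i j : ℝ)) (S.erase i₀) := by
        refine ns_isT hB ?_
        rw [Finset.card_erase_of_mem hi₀, hcard]
        obtain ⟨m, hm⟩ := hodd
        exact ⟨m + 1, by omega⟩
      obtain ⟨w, hw1, _⟩ := persist_ker (F := 𝓝 (0:ℝ)) (M := fun δ => DM x ξ B l δ 0)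
        (M₀ := fun i j => (B i j : ℝ)) hi₀ (fun i _ j _ => by
          have h2 : ∀ δ : ℝ, DM x ξ B l δ 0 i j = (B i j : ℝ) - δ * b i j := fun δ => by
            rw [hbc]; ring
          simp only [h2]
          have : Continuous (fun δ : ℝ => (B i j : ℝ) - δ * b i j) := by fun_prop
          have h3 := this.tendsto 0
          simpa using h3) (fun δ i _ j _ => DM_skew x ξ B hB l δ 0 i j) hNS
        (ker_altOn hodd2 hA)
      have h3 : Ev k (fun δ _ => Ker (DM x ξ B l δ 0) S (w δ)) := Ev.of_left hw1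
      refine h3.mono fun δ θ h4 _ _ _ => ⟨⟨i₀, hi₀⟩, w δ, h4.1, fun j hj => ?_⟩
      rw [← h4.2 j hj]
      exact Finset.sum_congr rfl fun i hi => by rw [hc0 i hi j hj]
    · exact (Ev.pos k).mono fun δ θ _ a b c => absurd ⟨a, b, c⟩ hS
  exact h1.mono fun δ θ h B hB _ l S => h B hB l S

theorem not_pos_both (x ξ : κ) (hne : x ≠ ξ) (B : κ → κ → ℤ) (hB : IsT B) (hT : Twin x ξ B)
    (l : κ → Fin 3) (δ θ : ℝ) (hθ : 0 < θ) (S : Finset κ) (hx : x ∈ S) (hξ : ξ ∈ S) :
    ¬ Pos (DM x ξ B l δ θ) S := by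
  rintro ⟨_, w, hw0, hw⟩
  have h1 := hw x hx
  have h2 := hw ξ hξ
  have h3 : ∑ i ∈ S, w i * (DM x ξ B l δ θ i ξ - DM x ξ B l δ θ i x) = 0 := by
    simp only [mul_sub]
    rw [Finset.sum_sub_distrib, h1, h2, sub_zero]
  have h4 : 0 < ∑ i ∈ S, w i * (DM x ξ B l δ θ i ξ - DM x ξ B l δ θ i x) := by
    refine Finset.sum_pos (fun i hi => mul_pos (hw0 i hi) ?_) ⟨x, hx⟩
    have hBξx : B ξ x = -1 := by rw [hB.skew x ξ, hT.1]
    by_cases e1 : i = x
    · subst e1
      unfold DM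
      simp [hT.1, hB.diag i]
    · by_cases e2 : i = ξ
      · subst e2
        unfold DM
        simp [e1, hBξx]
      · have h5 := hT.2 i e1 e2
        unfold DM
        simp only [e1, hne.symm, e2, or_self, false_and, if_false, if_true, or_true, h5]
        linarith
  linarith

end P1

end H51.Car
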