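import Pool.Agent.H51.Car.Core

/-!
Perturbation of skew payoff matrices: persistence and uniqueness of kernels, finite quantification
of `Ev`.
-/

set_option autoImplicit false

open Finset Filter Topology

namespace H51.Car

/-! ### `Ev` -/

lemma Ev.mono {k : ℕ} {P Q : ℝ → ℝ → Prop} (h : Ev k P) (hPQ : ∀ δ θ, P δ θ → Q δ θ) : Ev k Q :=
  Filter.Eventually.mono h fun δ hδ => hδ.mono fun θ hθ => hPQ δ θ hθ

lemma Ev.and {k : ℕ} {P Q : ℝ → ℝ → Prop} (h : Ev k P) (h' : Ev k Q) :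
    Ev k (fun δ θ => P δ θ ∧ Q δ θ) := by
  unfold Ev at *
  filter_upwards [h, h'] with δ h1 h2
  exact h1.and h2

lemma Ev.all_finite {k : ℕ} {ι : Type*} {s : Set ι} (hs : s.Finite) {P : ι → ℝ → ℝ → Prop}
    (h : ∀ i ∈ s, Ev k (P i)) : Ev k (fun δ θ => ∀ i ∈ s, P i δ θ) := by
  unfold Ev at *
  have h1 := (Filter.eventually_all_finite hs).2 h
  exact h1.mono fun δ hδ => (Filter.eventually_all_finite hs).2 hδ

lemma Ev.all {k : ℕ} {ι : Type*} [Finite ι] {P : ι → ℝ → ℝ → Prop}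
    (h : ∀ i, Ev k (P i)) : Ev k (fun δ θ => ∀ i, P i δ θ) := by
  refine (Ev.all_finite (s := Set.univ) Set.finite_univ fun i _ => h i).mono ?_
  intro δ θ h1 i
  exact h1 i trivial

lemma Ev.of_left {k : ℕ} {P : ℝ → Prop} (h : ∀ᶠ δ in 𝓝 (0:ℝ), P δ) : Ev k (fun δ _ => P δ) := by
  unfold Ev
  have h1 : ∀ᶠ δ in 𝓝[>] (0:ℝ), P δ := h.filter_mono nhdsWithin_le_nhds
  exact h1.mono fun δ hδ => Filter.Eventually.of_forall fun _ => hδ

lemma Ev.pos (k : ℕ) : Ev k (fun δ _ => 0 < δ) := by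
  unfold Ev
  have h1 : ∀ᶠ δ in 𝓝[>] (0:ℝ), 0 < δ := eventually_mem_nhdsWithin
  exact h1.mono fun δ hδ => Filter.Eventually.of_forall fun _ => hδ

lemma finite_isT {κ : Type*} [Finite κ] : {B : κ → κ → ℤ | IsT B}.Finite := by
  have h : (Set.pi Set.univ fun _ : κ => Set.pi Set.univ fun _ : κ => Set.Icc (-1 : ℤ) 1).Finite :=
    Set.Finite.pi fun _ => Set.Finite.pi fun _ => Set.finite_Icc _ _
  refine h.subset fun B hB => ?_
  simp only [Set.mem_pi, Set.mem_univ, forall_true_left, Set.mem_Icc]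
  intro i j
  rcases eq_or_ne i j with rfl | hij
  · have := hB.skew i i
    omega
  · rcases hB.pm i j hij with h | h <;> omega

lemma IsT.diag {V : Type*} {s : V → V → ℤ} (h : IsT s) (i : V) : s i i = 0 := by
  have := h.skew i i
  omega

/-! ### nonsingularity -/

/-- `M` is nonsingular on `Z`. -/
def NS {κ : Type*} (M : κ → κ → ℝ) (Z : Finset κ) : Prop :=
  ∀ w : κ → ℝ, (∀ j ∈ Z, ∑ i ∈ Z, w i * M i j = 0) → ∀ i ∈ Z, w i = 0

/-- The restricted matrix. -/
def rm {κ R : Type*} (M : κ → κ → R) (Z : Finset κ) : Matrix Z Z R :=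
  Matrix.of fun i j => M i j

lemma ns_iff {κ : Type*} [DecidableEq κ] (M : κ → κ → ℝ) (Z : Finset κ) :
    NS M Z ↔ (rm M Z).det ≠ 0 := by
  constructor
  · intro h hdet
    obtain ⟨v, hv, hv0⟩ := Matrix.exists_vecMul_eq_zero_iff.2 hdet
    apply hv
    have h1 := h (fun i => if hi : i ∈ Z then v ⟨i, hi⟩ else 0) (fun j hj => by
      have h2 := congrFun hv0 ⟨j, hj⟩
      simp only [Matrix.vecMul, dotProduct, rm, Matrix.of_apply, Pi.zero_apply] at h2
      rw [← h2, ← Finset.sum_attach, ← Finset.univ_eq_attach]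
      refine Finset.sum_congr rfl fun i _ => ?_
      simp)
    ext ⟨i, hi⟩
    have := h1 i hi
    simpa [hi] using this
  · intro hdet w hw i hi
    have h1 : Matrix.vecMul (fun i : Z => w i) (rm M Z) = 0 := by
      ext ⟨j, hj⟩
      simp only [Matrix.vecMul, dotProduct, rm, Matrix.of_apply, Pi.zero_apply]
      rw [Finset.univ_eq_attach, Finset.sum_attach Z (fun i => w i * M i j)]
      exact hw j hj
    have h2 := Matrix.eq_zero_of_vecMul_eq_zero hdet h1
    exact congrFun h2 ⟨i, hi⟩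

/-- The determinant of a sign matrix of even order is odd. -/
lemma det_isT {κ : Type*} [DecidableEq κ] {B : κ → κ → ℤ} (hB : IsT B) {Z : Finset κ}
    (hZ : Even Z.card) : (rm B Z).det ≠ 0 := by
  intro h0
  -- reduce modulo two
  set A : Matrix Z Z (ZMod 2) := (Int.castRingHom (ZMod 2)).mapMatrix (rm B Z) with hA
  have hAdet : A.det = 0 := by
    rw [hA, ← RingHom.map_det, h0, map_zero]
  have hent : ∀ i j : Z, A i j = if i = j then 0 else 1 := by
    intro i j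
    have h1 : A i j = ((B i j : ℤ) : ZMod 2) := rfl
    rw [h1]
    split_ifs with hij
    · subst hij
      rw [hB.diag]
      simp
    · have hne : (i : κ) ≠ j := fun h => hij (Subtype.ext h)
      rcases hB.pm i j hne with h | h
      · rw [h]; simp
      · rw [h]; decide
  have hsq : A * A = 1 := by
    ext i j
    rw [Matrix.mul_apply]
    simp only [hent]
    have h1 : ∑ l : Z, (if i = l then (0 : ZMod 2) else 1) * (if l = j then 0 else 1) =
        ∑ l : Z, (if l = i then (0 : ZMod 2) else 1) * (if l = j then 0 else 1) := by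
      refine Finset.sum_congr rfl fun l _ => ?_
      simp only [eq_comm]
    rw [h1]
    have hcard : ((Fintype.card Z : ℕ) : ZMod 2) = 0 := by
      rw [Fintype.card_coe]
      exact (ZMod.natCast_eq_zero_iff_even).2 hZ
    by_cases hij : i = j
    · subst hij
      rw [Matrix.one_apply_eq]
      have h2 : ∀ l : Z, (if l = i then (0 : ZMod 2) else 1) * (if l = i then 0 else 1) =
          1 - (if l = i then 1 else 0) := by
        intro l
        split_ifs <;> simp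
      rw [Finset.sum_congr rfl fun l _ => h2 l, Finset.sum_sub_distrib]
      simp only [Finset.sum_const, Finset.card_univ, nsmul_eq_mul, mul_one, hcard,
        Finset.sum_ite_eq', Finset.mem_univ, if_true]
      decide
    · rw [Matrix.one_apply_ne hij]
      have h2 : ∀ l : Z, (if l = i then (0 : ZMod 2) else 1) * (if l = j then 0 else 1) =
          1 - (if l = i then 1 else 0) - (if l = j then 1 else 0) := by
        intro l
        by_cases h3 : l = i
        · subst h3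
          simp [hij]
        · by_cases h4 : l = j
          · subst h4
            simp [h3]
          · simp [h3, h4]
      rw [Finset.sum_congr rfl fun l _ => h2 l, Finset.sum_sub_distrib, Finset.sum_sub_distrib]
      simp only [Finset.sum_const, Finset.card_univ, nsmul_eq_mul, mul_one, hcard,
        Finset.sum_ite_eq', Finset.mem_univ, if_true]
      decide
  have h2 : A.det * A.det = 1 := by rw [← Matrix.det_mul, hsq, Matrix.det_one]
  rw [hAdet] at h2
  simp at h2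

lemma ns_isT {κ : Type*} [DecidableEq κ] {B : κ → κ → ℤ} (hB : IsT B) {Z : Finset κ}
    (hZ : Even Z.card) : NS (fun i j => (B i j : ℝ)) Z := by
  rw [ns_iff]
  have h1 : rm (fun i j => (B i j : ℝ)) Z = (Int.castRingHom ℝ).mapMatrix (rm B Z) := by
    ext i j
    rfl
  rw [h1, ← RingHom.map_det]
  simp only [eq_intCast, ne_eq, Int.cast_eq_zero]
  exact det_isT hB hZ

/-! ### uniqueness -/

/-- the vector `w` is in the left kernel of `M` on `S` -/
def LK {κ : Type*} (M : κ → κ → ℝ) (S : Finset κ) (w : κ → ℝ) : Prop :=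
  ∀ j ∈ S, ∑ i ∈ S, w i * M i j = 0

lemma LK.prop {κ : Type*} [DecidableEq κ] {M : κ → κ → ℝ} {S : Finset κ} {i₀ : κ}
    (h0 : i₀ ∈ S) (hNS : NS M (S.erase i₀)) {w w' : κ → ℝ} (hw : LK M S w) (hw' : LK M S w') :
    ∀ i ∈ S, w' i₀ * w i = w i₀ * w' i := by
  intro i hi
  rcases eq_or_ne i i₀ with rfl | hne
  · ring
  have h1 := hNS (fun i => w' i₀ * w i - w i₀ * w' i) (fun j hj => by
    have hjS := Finset.mem_of_mem_erase hj
    have h2 := hw j hjS
    have h3 := hw' j hjS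
    rw [← Finset.add_sum_erase _ _ h0] at h2 h3
    have h4 : ∑ i ∈ S.erase i₀, (w' i₀ * w i - w i₀ * w' i) * M i j =
        w' i₀ * ∑ i ∈ S.erase i₀, w i * M i j - w i₀ * ∑ i ∈ S.erase i₀, w' i * M i j := by
      rw [Finset.mul_sum, Finset.mul_sum, ← Finset.sum_sub_distrib]
      exact Finset.sum_congr rfl fun _ _ => by ring
    rw [h4]
    linear_combination w' i₀ * h2 - w i₀ * h3) i (Finset.mem_erase.2 ⟨hne, hi⟩)
  linarith

/-- The sign of the payoff, computed with one kernel vector. -/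
lemma sg_eq {κ : Type*} [DecidableEq κ] {M : κ → κ → ℝ} {S : Finset κ} {i₀ : κ}
    (h0 : i₀ ∈ S) (hNS : NS M (S.erase i₀)) {w : κ → ℝ} (hw : Ker M S w) (b : κ → ℝ) :
    (0 < ∑ i ∈ S, w i * b i → sg M S b = 1) ∧ (∑ i ∈ S, w i * b i < 0 → sg M S b = -1) := by
  constructor
  · intro h
    unfold sg
    rw [if_pos ⟨w, hw, h⟩]
  · intro h
    unfold sg
    rw [if_neg, if_pos ⟨w, hw, h⟩]
    rintro ⟨w', hw', h'⟩
    have h1 := LK.prop h0 hNS hw.2 hw'.2
    have h2 : w' i₀ * ∑ i ∈ S, w i * b i = w i₀ * ∑ i ∈ S, w' i * b i := by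
      rw [Finset.mul_sum, Finset.mul_sum]
      refine Finset.sum_congr rfl fun i hi => ?_
      rw [← mul_assoc, h1 i hi, mul_assoc]
    have h3 := hw.1 i₀ h0
    have h4 := hw'.1 i₀ h0
    have h5 := mul_neg_of_pos_of_neg h4 h
    have h6 := mul_pos h3 h'
    linarith

/-! ### persistence -/

lemma skew_quad {κ : Type*} {M : κ → κ → ℝ} {S : Finset κ}
    (hsk : ∀ i ∈ S, ∀ j ∈ S, M j i = - M i j) (w : κ → ℝ) :
    ∑ j ∈ S, w j * ∑ i ∈ S, w i * M i j = 0 := by
  have h1 : ∑ j ∈ S, w j * ∑ i ∈ S, w i * M i j = ∑ j ∈ S, ∑ i ∈ S, w j * w i * M i j := by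
    refine Finset.sum_congr rfl fun j _ => ?_
    rw [Finset.mul_sum]
    exact Finset.sum_congr rfl fun _ _ => by ring
  have h2 : ∑ j ∈ S, ∑ i ∈ S, w j * w i * M i j = - ∑ j ∈ S, ∑ i ∈ S, w j * w i * M i j := by
    conv_lhs => rw [Finset.sum_comm]
    rw [← Finset.sum_neg_distrib]
    refine Finset.sum_congr rfl fun j hj => ?_
    rw [← Finset.sum_neg_distrib]
    refine Finset.sum_congr rfl fun i hi => ?_
    rw [hsk i hi j hj]
    ring
  rw [h1]
  linarith

/-- A vector which solves the equations of all columns but `i₀` is in the kernel. -/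
lemma LK.of_erase {κ : Type*} [DecidableEq κ] {M : κ → κ → ℝ} {S : Finset κ} {i₀ : κ}
    (h0 : i₀ ∈ S) (hsk : ∀ i ∈ S, ∀ j ∈ S, M j i = - M i j) {w : κ → ℝ} (hw0 : w i₀ ≠ 0)
    (hw : ∀ j ∈ S.erase i₀, ∑ i ∈ S, w i * M i j = 0) : LK M S w := by
  have h1 := skew_quad hsk w
  rw [← Finset.add_sum_erase _ _ h0] at h1
  have h2 : ∑ j ∈ S.erase i₀, w j * ∑ i ∈ S, w i * M i j = 0 := by
    refine Finset.sum_eq_zero fun j hj => ?_
    rw [hw j hj, mul_zero]
  rw [h2, add_zero] at h1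
  rcases mul_eq_zero.1 h1 with h3 | h3
  · exact absurd h3 hw0
  · intro j hj
    rcases eq_or_ne j i₀ with rfl | hne
    · exact h3
    · exact hw j (Finset.mem_erase.2 ⟨hne, hj⟩)

lemma tendsto_rm {T κ : Type*} {F : Filter T} {M : T → κ → κ → ℝ} {M₀ : κ → κ → ℝ} {Z : Finset κ}
    (hM : ∀ i ∈ Z, ∀ j ∈ Z, Tendsto (fun t => M t i j) F (𝓝 (M₀ i j))) :
    Tendsto (fun t => rm (M t) Z) F (𝓝 (rm M₀ Z)) := by
  refine tendsto_pi_nhds.2 fun i => tendsto_pi_nhds.2 fun j => ?_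
  exact hM i i.2 j j.2

/-- Nonsingularity persists. -/
lemma ns_persist {T κ : Type*} [DecidableEq κ] {F : Filter T} {M : T → κ → κ → ℝ}
    {M₀ : κ → κ → ℝ} {Z : Finset κ}
    (hM : ∀ i ∈ Z, ∀ j ∈ Z, Tendsto (fun t => M t i j) F (𝓝 (M₀ i j))) (h : NS M₀ Z) :
    ∀ᶠ t in F, NS (M t) Z := by
  rw [ns_iff] at h
  have h1 : Tendsto (fun t => (rm (M t) Z).det) F (𝓝 (rm M₀ Z).det) :=
    ((continuous_id.matrix_det).tendsto (rm M₀ Z)).comp (tendsto_rm hM)
  filter_upwards [h1.eventually_ne h] with t ht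
  rw [ns_iff]
  exact ht

/-- Kernels persist. -/
theorem persist {T κ : Type*} [DecidableEq κ] {F : Filter T} {M : T → κ → κ → ℝ}
    {M₀ : κ → κ → ℝ} {S : Finset κ} {i₀ : κ} (h0 : i₀ ∈ S)
    (hM : ∀ i ∈ S, ∀ j ∈ S, Tendsto (fun t => M t i j) F (𝓝 (M₀ i j)))
    (hsk : ∀ t, ∀ i ∈ S, ∀ j ∈ S, M t j i = - M t i j)
    (hNS : NS M₀ (S.erase i₀)) {w₀ : κ → ℝ} (hw₀ : LK M₀ S w₀) (h1 : w₀ i₀ ≠ 0) :
    ∃ w : T → κ → ℝ, (∀ᶠ t in F, LK (M t) S (w t)) ∧
      ∀ i ∈ S, Tendsto (fun t => w t i) F (𝓝 (w₀ i)) := by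
  set Z := S.erase i₀ with hZ
  have hZS : ∀ i ∈ Z, i ∈ S := fun i hi => Finset.mem_of_mem_erase hi
  have hMZ : ∀ i ∈ Z, ∀ j ∈ Z, Tendsto (fun t => M t i j) F (𝓝 (M₀ i j)) :=
    fun i hi j hj => hM i (hZS i hi) j (hZS j hj)
  set A : T → Matrix Z Z ℝ := fun t => rm (M t) Z with hA
  set A₀ : Matrix Z Z ℝ := rm M₀ Z with hA₀
  have hdet₀ : A₀.det ≠ 0 := (ns_iff _ _).1 hNS
  have hAt : Tendsto A F (𝓝 A₀) := tendsto_rm hMZ
  have hdt : Tendsto (fun t => (A t).det) F (𝓝 A₀.det) :=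
    ((continuous_id.matrix_det).tendsto A₀).comp hAt
  have hadj : Tendsto (fun t => (A t).adjugate) F (𝓝 A₀.adjugate) :=
    ((continuous_id.matrix_adjugate).tendsto A₀).comp hAt
  set b : T → Z → ℝ := fun t j => - (w₀ i₀ * M t i₀ j) with hb
  set b₀ : Z → ℝ := fun j => - (w₀ i₀ * M₀ i₀ j) with hb₀
  have hbt : Tendsto b F (𝓝 b₀) := by
    refine tendsto_pi_nhds.2 fun j => ?_
    exact ((hM i₀ h0 j (hZS j j.2)).const_mul (w₀ i₀)).neg
  set v : T → Z → ℝ := fun t => ((A t).det)⁻¹ • Matrix.vecMul (b t) (A t).adjugate with hv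
  have hvA : ∀ t, (A t).det ≠ 0 → Matrix.vecMul (v t) (A t) = b t := by
    intro t ht
    simp only [hv]
    rw [Matrix.smul_vecMul, Matrix.vecMul_vecMul, Matrix.adjugate_mul, Matrix.vecMul_smul,
      Matrix.vecMul_one, smul_smul, inv_mul_cancel₀ ht, one_smul]
  have hw₀Z : Matrix.vecMul (fun i : Z => w₀ i) A₀ = b₀ := by
    ext ⟨j, hj⟩
    have h2 := hw₀ j (hZS j hj)
    rw [← Finset.add_sum_erase _ _ h0, ← hZ] at h2
    simp only [Matrix.vecMul, dotProduct, hA₀, rm, Matrix.of_apply, hb₀]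
    rw [Finset.univ_eq_attach, Finset.sum_attach Z (fun i => w₀ i * M₀ i j)]
    linarith
  have hv₀ : (A₀.det)⁻¹ • Matrix.vecMul b₀ A₀.adjugate = fun i : Z => w₀ i := by
    rw [← hw₀Z, Matrix.vecMul_vecMul, Matrix.mul_adjugate, Matrix.vecMul_smul,
      Matrix.vecMul_one, smul_smul, inv_mul_cancel₀ hdet₀, one_smul]
  have hvt : ∀ i : Z, Tendsto (fun t => v t i) F (𝓝 (w₀ i)) := by
    intro i
    have h2 : w₀ i = (A₀.det)⁻¹ * ∑ j : Z, b₀ j * A₀.adjugate j i := by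
      have := congrFun hv₀ i
      simp only [Pi.smul_apply, Matrix.vecMul, dotProduct, smul_eq_mul] at this
      exact this.symm
    rw [h2]
    have h3 : ∀ t, v t i = ((A t).det)⁻¹ * ∑ j : Z, b t j * (A t).adjugate j i := by
      intro t
      simp only [hv, Pi.smul_apply, Matrix.vecMul, dotProduct, smul_eq_mul]
    simp only [h3]
    refine (hdt.inv₀ hdet₀).mul (tendsto_finsetSum _ fun j _ => ?_)
    refine Tendsto.mul ?_ ?_
    · exact (tendsto_pi_nhds.1 hbt) j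
    · exact tendsto_pi_nhds.1 (tendsto_pi_nhds.1 hadj j) i
  refine ⟨fun t i => if hi : i ∈ Z then v t ⟨i, hi⟩ else w₀ i₀, ?_, ?_⟩
  · filter_upwards [hdt.eventually_ne hdet₀] with t ht
    have hi₀Z : i₀ ∉ Z := by rw [hZ]; simp
    refine LK.of_erase h0 (hsk t) (by rw [dif_neg hi₀Z]; exact h1) fun j hj => ?_
    rw [← Finset.add_sum_erase _ _ h0, dif_neg hi₀Z, ← hZ]
    have h2 := congrFun (hvA t ht) ⟨j, hj⟩
    simp only [Matrix.vecMul, dotProduct, hA, rm, Matrix.of_apply, hb] at h2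
    have h3 : ∑ i ∈ Z, (if hi : i ∈ Z then v t ⟨i, hi⟩ else w₀ i₀) * M t i j =
        ∑ i : Z, v t i * M t i j := by
      rw [← Finset.sum_attach, ← Finset.univ_eq_attach]
      refine Finset.sum_congr rfl fun i _ => ?_
      rw [dif_pos i.2]
    rw [h3, h2]
    ring
  · intro i hi
    by_cases hiZ : i ∈ Z
    · simp only [dif_pos hiZ]
      exact hvt ⟨i, hiZ⟩
    · simp only [dif_neg hiZ]
      have : i = i₀ := by
        by_contra hne
        exact hiZ (Finset.mem_erase.2 ⟨hne, hi⟩)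
      rw [this]
      exact tendsto_const_nhds

/-- Positive kernels persist. -/
theorem persist_ker {T κ : Type*} [DecidableEq κ] {F : Filter T} {M : T → κ → κ → ℝ}
    {M₀ : κ → κ → ℝ} {S : Finset κ} {i₀ : κ} (h0 : i₀ ∈ S)
    (hM : ∀ i ∈ S, ∀ j ∈ S, Tendsto (fun t => M t i j) F (𝓝 (M₀ i j)))
    (hsk : ∀ t, ∀ i ∈ S, ∀ j ∈ S, M t j i = - M t i j)
    (hNS : NS M₀ (S.erase i₀)) {w₀ : κ → ℝ} (hw₀ : Ker M₀ S w₀) :
    ∃ w : T → κ → ℝ, (∀ᶠ t in F, Ker (M t) S (w t)) ∧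
      ∀ i ∈ S, Tendsto (fun t => w t i) F (𝓝 (w₀ i)) := by
  obtain ⟨w, hw1, hw2⟩ := persist h0 hM hsk hNS hw₀.2 (hw₀.1 i₀ h0).ne'
  refine ⟨w, ?_, hw2⟩
  have h2 : ∀ᶠ t in F, ∀ i ∈ S, 0 < w t i :=
    (Filter.eventually_all_finset S).2 fun i hi => (hw2 i hi).eventually (lt_mem_nhds (hw₀.1 i hi))
  filter_upwards [hw1, h2] with t h3 h4
  exact ⟨h4, h3⟩

/-! ### transport along an enumeration -/

lemma ker_image {ι κ : Type*} [Fintype ι] [DecidableEq κ] {M : κ → κ → ℝ} {N : ι → ι → ℝ}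
    {e : ι → κ} (he : Function.Injective e) (hMN : ∀ i j, M (e i) (e j) = N i j) (w : κ → ℝ) :
    Ker M (univ.image e) w ↔ Ker N univ (w ∘ e) := by
  unfold Ker
  constructor
  · rintro ⟨h1, h2⟩
    refine ⟨fun i _ => h1 _ (Finset.mem_image_of_mem _ (Finset.mem_univ i)), fun j _ => ?_⟩
    have h3 := h2 (e j) (Finset.mem_image_of_mem _ (Finset.mem_univ j))
    rw [Finset.sum_image (fun a _ b _ h => he h)] at h3
    rw [← h3]
    refine Finset.sum_congr rfl fun i _ => ?_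
    rw [hMN]
    rfl
  · rintro ⟨h1, h2⟩
    constructor
    · intro i hi
      obtain ⟨a, _, rfl⟩ := Finset.mem_image.1 hi
      exact h1 a (Finset.mem_univ a)
    · intro j hj
      obtain ⟨b, _, rfl⟩ := Finset.mem_image.1 hj
      rw [Finset.sum_image (fun a _ b _ h => he h)]
      rw [← h2 b (Finset.mem_univ b)]
      refine Finset.sum_congr rfl fun i _ => ?_
      rw [hMN]
      rfl

lemma ker_lift {ι κ : Type*} [Fintype ι] [DecidableEq κ] {M : κ → κ → ℝ} {N : ι → ι → ℝ}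
    {e : ι → κ} (he : Function.Injective e) (hMN : ∀ i j, M (e i) (e j) = N i j) {v : ι → ℝ}
    (hv : Ker N univ v) : Ker M (univ.image e) (Function.extend e v 0) := by
  rw [ker_image he hMN]
  have : Function.extend e v 0 ∘ e = v := by
    funext i
    exact he.extend_apply v 0 i
  rw [this]
  exact hv

lemma pos_image {ι κ : Type*} [Fintype ι] [DecidableEq κ] {M : κ → κ → ℝ} {N : ι → ι → ℝ}
    {e : ι → κ} (he : Function.Injective e) (hMN : ∀ i j, M (e i) (e j) = N i j) :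
    Pos M (univ.image e) ↔ Pos N univ := by
  unfold Pos
  constructor
  · rintro ⟨⟨x, hx⟩, w, hw⟩
    obtain ⟨a, _, rfl⟩ := Finset.mem_image.1 hx
    exact ⟨⟨a, Finset.mem_univ a⟩, w ∘ e, (ker_image he hMN w).1 hw⟩
  · rintro ⟨⟨a, _⟩, v, hv⟩
    exact ⟨⟨e a, Finset.mem_image_of_mem _ (Finset.mem_univ a)⟩, _, ker_lift he hMN hv⟩

lemma sg_image {ι κ : Type*} [Fintype ι] [DecidableEq κ] {M : κ → κ → ℝ} {N : ι → ι → ℝ}
    {e : ι → κ} (he : Function.Injective e) (hMN : ∀ i j, M (e i) (e j) = N i j) (b : κ → ℝ) :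
    sg M (univ.image e) b = sg N univ (b ∘ e) := by
  have hsum : ∀ w : κ → ℝ, ∑ i ∈ univ.image e, w i * b i = ∑ i, (w ∘ e) i * (b ∘ e) i := by
    intro w
    rw [Finset.sum_image (fun a _ b _ h => he h)]
    rfl
  have hext : ∀ v : ι → ℝ, Function.extend e v 0 ∘ e = v := fun v => by
    funext i
    exact he.extend_apply v 0 i
  have e1 : (∃ w, Ker M (univ.image e) w ∧ 0 < ∑ i ∈ univ.image e, w i * b i) ↔
      ∃ v, Ker N univ v ∧ 0 < ∑ i, v i * (b ∘ e) i := by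
    constructor
    · rintro ⟨w, hw, h⟩
      exact ⟨w ∘ e, (ker_image he hMN w).1 hw, by rw [← hsum]; exact h⟩
    · rintro ⟨v, hv, h⟩
      refine ⟨_, ker_lift he hMN hv, ?_⟩
      rw [hsum, hext]
      exact h
  have e2 : (∃ w, Ker M (univ.image e) w ∧ ∑ i ∈ univ.image e, w i * b i < 0) ↔
      ∃ v, Ker N univ v ∧ ∑ i, v i * (b ∘ e) i < 0 := by
    constructor
    · rintro ⟨w, hw, h⟩
      exact ⟨w ∘ e, (ker_image he hMN w).1 hw, by rw [← hsum]; exact h⟩
    · rintro ⟨v, hv, h⟩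
      refine ⟨_, ker_lift he hMN hv, ?_⟩
      rw [hsum, hext]
      exact h
  unfold sg
  by_cases h1 : ∃ v, Ker N univ v ∧ 0 < ∑ i, v i * (b ∘ e) i
  · rw [if_pos (e1.2 h1), if_pos h1]
  · rw [if_neg (fun h => h1 (e1.1 h)), if_neg h1]
    by_cases h2 : ∃ v, Ker N univ v ∧ ∑ i, v i * (b ∘ e) i < 0
    · rw [if_pos (e2.2 h2), if_pos h2]
    · rw [if_neg (fun h => h2 (e2.1 h)), if_neg h2]

end H51.Car
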